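import Pool.Agent.Lib.MP_8d8c46_lc.Mg.G020

/-!
Sherali–Adams solutions on the lifts of graphs with few short cycles.
-/

set_option autoImplicit false
set_option linter.unusedSectionVars false

open Finset MeasureTheory ProbabilityTheory
open scoped Classical

namespace Pool.Agent.Lib.MP_8d8c46_lc.SA

variable {V : Type*} [Fintype V] {q : ℕ} [NeZero q]

/-- The lift of `B` with shifts `sh`. -/
def lift (B : SimpleGraph V) (sh : V → V → ZMod q) (hsh : ∀ x y, sh y x = -sh x y) :
    SimpleGraph (V × ZMod q) where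
  Adj x y := B.Adj x.1 y.1 ∧ y.2 = x.2 + sh x.1 y.1
  symm := ⟨fun x y h => by
    refine ⟨h.1.symm, ?_⟩
    rw [hsh x.1 y.1, h.2]
    ring⟩
  loopless := ⟨fun x h => B.loopless.irrefl _ h.1⟩

section
variable {B : SimpleGraph V} {sh : V → V → ZMod q} {hsh : ∀ x y, sh y x = -sh x y}

/-- a backtracking step below is a backtracking step above -/
lemma lift_backtrack {x y z : V × ZMod q} (h1 : (lift B sh hsh).Adj x y)
    (h2 : (lift B sh hsh).Adj y z) (h : x.1 = z.1) : x = z := by
  refine Prod.ext h ?_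
  rw [h2.2, h1.2, ← h, hsh x.1 y.1]
  ring

lemma NB.lift {M : ℕ} (hB : NB B M) : NB (lift B sh hsh) M := by
  intro m x h1 h2 h3 h4
  obtain ⟨i, h5, h6⟩ := hB m (fun i => (x i).1) h1 h2 (fun i hi => (h3 i hi).1)
    (congrArg Prod.fst h4)
  exact ⟨i, h5, lift_backtrack (h3 i (by omega)) (h3 (i + 1) (by omega)) h6⟩

lemma cloud_far {L M : ℕ} (hB : NB B M) (hLM : L ≤ M) {v : V} {i j : ZMod q} (hij : i ≠ j) :
    ¬ (SA.lift B sh hsh).edist (v, i) (v, j) ≤ L := by
  intro h
  have h2 : (SA.lift B sh hsh).edist (v, i) (v, j) ≠ ⊤ :=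
    ne_top_of_le_ne_top (ENat.natCast_ne_top L) h
  obtain ⟨r, hr⟩ := ENat.ne_top_iff_exists.1 h2
  have hrL : r ≤ L := by
    rw [← hr] at h; exact_mod_cast h
  have hr1 : 1 ≤ r := by
    rw [Nat.one_le_iff_ne_zero]
    rintro rfl
    have := SimpleGraph.edist_eq_zero_iff.1 hr.symm
    exact hij (congrArg Prod.snd this)
  obtain ⟨p, hp⟩ := exists_walk_nat hr.symm
  obtain ⟨t, h5, h6⟩ := hB r (fun t => (p.getVert t).1) hr1 (by omega)
    (fun t ht => (p.adj_getVert_succ (by omega)).1) (by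
      rw [SimpleGraph.Walk.getVert_zero, ← hp, SimpleGraph.Walk.getVert_length])
  have h7 : p.getVert t = p.getVert (t + 2) :=
    lift_backtrack (p.adj_getVert_succ (by omega)) (p.adj_getVert_succ (by omega)) h6
  have h8 := edist_getVert hr.symm p hp (i := t) (by omega)
  rw [h7, edist_getVert hr.symm p hp h5] at h8
  norm_cast at h8
  omega

lemma dg_lift (x : V × ZMod q) : dg (SA.lift B sh hsh) x = dg B x.1 := by
  unfold dg
  refine card_bij (fun y _ => y.1) ?_ ?_ ?_
  · intro y hy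
    simp only [mem_filter, mem_univ, true_and] at hy ⊢
    exact hy.1
  · intro y hy z hz h
    simp only [mem_filter, mem_univ, true_and] at hy hz
    refine Prod.ext h ?_
    rw [hy.2, hz.2, h]
  · intro v hv
    simp only [mem_filter, mem_univ, true_and] at hv
    exact ⟨(v, x.2 + sh x.1 v), by simp only [mem_filter, mem_univ, true_and]; exact ⟨hv, rfl⟩, rfl⟩

lemma card_adj_lift : (univ.filter (fun e : (V × ZMod q) × (V × ZMod q) =>
      (SA.lift B sh hsh).Adj e.1 e.2)).card =
    q * (univ.filter (fun e : V × V => B.Adj e.1 e.2)).card := by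
  have h1 : q * (univ.filter (fun e : V × V => B.Adj e.1 e.2)).card =
      ((univ : Finset (ZMod q)) ×ˢ (univ.filter (fun e : V × V => B.Adj e.1 e.2))).card := by
    rw [card_product, card_univ, ZMod.card]
  rw [h1]
  refine card_bij (fun e _ => (e.1.2, (e.1.1, e.2.1))) ?_ ?_ ?_
  · intro e he
    simp only [mem_filter, mem_univ, true_and, mem_product] at he ⊢
    exact he.1
  · rintro ⟨⟨a, i⟩, ⟨b, j⟩⟩ he ⟨⟨a', i'⟩, ⟨b', j'⟩⟩ he' h
    simp only [Prod.mk.injEq] at h
    obtain ⟨rfl, rfl, rfl⟩ := h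
    simp only [mem_filter, mem_univ, true_and] at he he'
    have : j = j' := (he.2 : j = i + sh a b).trans (he'.2 : j' = i + sh a b).symm
    rw [this]
  · rintro ⟨i, ⟨a, b⟩⟩ h
    simp only [mem_product, mem_univ, mem_filter, true_and] at h
    exact ⟨((a, i), (b, i + sh a b)), by
      simp only [mem_filter, mem_univ, true_and]; exact ⟨h, rfl⟩, rfl⟩

end

lemma XX_le_one {K : V × ZMod q → V × ZMod q → ℝ} (p : ℕ) (T : Finset (V × ZMod q)) :
    XX K p T ≤ 1 := by
  unfold XX
  have h1 : ∫ x, indf p T (ext (T.image Prod.fst) x) ∂(gm K (T.image Prod.fst)) ≤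
      ∫ _x, (1 : ℝ) ∂(gm K (T.image Prod.fst)) :=
    integral_mono (integrable_indf K p T _) (integrable_const 1) (fun x => indf_le_one _ _ _)
  rwa [integral_const, probReal_univ, smul_eq_mul, mul_one] at h1

lemma XX_nonneg {K : V × ZMod q → V × ZMod q → ℝ} (p : ℕ) (T : Finset (V × ZMod q)) :
    0 ≤ XX K p T := by
  unfold XX
  exact integral_nonneg (fun x => indf_nonneg _ _ _)

/-- A graph with a large subgraph without short cycles: all its lifts have good Sherali–Adams
solutions. -/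
theorem exists_solution {B B' : SimpleGraph V} {sh : V → V → ZMod q}
    (hsh : ∀ x y, sh y x = -sh x y) (hBB : B' ≤ B) {L d k p : ℕ} (hL : 1 ≤ L)
    (hNB : NB B' (2 * L)) (hd : ∀ v, dg B v = d) (hk : 2 ≤ k) (hp : p ≤ q) (hp1 : 1 ≤ p)
    (hd1 : 1 ≤ d) {ρ τ : ℝ} (hρ : 0 ≤ ρ) (hρ1 : ρ < 1) (hτ : 0 < τ)
    (hm : ((k * q + (k * q) ^ 2 * (L + 1) : ℕ) : ℝ) * ((1 + d) * ρ ^ L) < 1 - ρ ^ 2)
    (hV : 0 < Fintype.card V) :
    ∃ X : Finset (V × ZMod q) → ℝ, SheraliAdams k (p * Fintype.card V) X ∧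
      pseudoExpansion (lift B sh hsh) d (p * Fintype.card V) X ≤
        q * (q * (τ + 16 * (1 - ρ) / τ ^ 2)) +
        q * (univ.filter (fun e : V × V => B.Adj e.1 e.2 ∧ ¬ B'.Adj e.1 e.2)).card /
          (d * Fintype.card V) := by
  obtain ⟨K, hK⟩ : ∃ K, K = kern (lift B' sh hsh) L ρ := ⟨_, rfl⟩
  have hd' : ∀ x : V × ZMod q, dg (lift B' sh hsh) x ≤ d := by
    intro x
    rw [dg_lift, ← hd x.1]
    unfold dg
    refine card_le_card (fun y hy => ?_)
    simp only [mem_filter, mem_univ, true_and] at hy ⊢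
    exact hBB hy
  have hpsd : ∀ A : Finset V, A.card ≤ k → (cov K A).PosSemidef := by
    intro A hA
    have := kern_local (H := lift B' sh hsh) hL hNB.lift hd' hρ hρ1 hm (cl q A)
      (by rw [card_cl]; exact Nat.mul_le_mul_right _ hA)
    rw [hK]
    exact this
  refine ⟨XX K p, sheraliAdams_XX hpsd hp, ?_⟩
  obtain ⟨ε, hε⟩ : ∃ ε, ε = q * (τ + 16 * (1 - ρ) / τ ^ 2) := ⟨_, rfl⟩
  have hq : 0 < q := Nat.pos_of_ne_zero (NeZero.ne q)
  have hq' : (0 : ℝ) < q := by exact_mod_cast hq
  have hV' : (0 : ℝ) < Fintype.card V := by exact_mod_cast hV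
  have hd1' : (0 : ℝ) < d := by exact_mod_cast hd1
  have hp1' : (1 : ℝ) ≤ p := by exact_mod_cast hp1
  have hε0 : 0 ≤ ε := by
    rw [hε]
    have : 0 ≤ 1 - ρ := by linarith
    positivity
  -- edges of the large subgraph
  have hgood : ∀ e : (V × ZMod q) × (V × ZMod q), (lift B' sh hsh).Adj e.1 e.2 →
      XX K p {e.1} - XX K p {e.1, e.2} ≤ ε := by
    rintro ⟨⟨u, i⟩, ⟨v, j⟩⟩ he
    obtain ⟨h1, h2⟩ := he
    simp only at h1 h2
    subst h2
    rw [hε]
    refine XX_edge (c := sh u v) (ρ := ρ) (hpsd {u, v} ?_) ?_ ?_ ?_ hρ1.le hτ hp i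
    · exact (card_le_two).trans hk
    · intro y
      rw [hK]
      exact kern_self y
    · intro a b hab
      rw [hK]
      exact kern_eq_zero (cloud_far hNB (by omega) hab)
    · intro a
      rw [hK, kern_eq (r := 1) _ hL, pow_one]
      have : (lift B' sh hsh).Adj (u, a) (v, a + sh u v) := ⟨h1, rfl⟩
      rw [SimpleGraph.edist_eq_one_iff_adj.2 this]
      rfl
  have hbad : ∀ e : (V × ZMod q) × (V × ZMod q), XX K p {e.1} - XX K p {e.1, e.2} ≤ 1 := by
    intro e
    have h1 := XX_le_one (K := K) p {e.1}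
    have h2 := XX_nonneg (K := K) p {e.1, e.2}
    linarith
  obtain ⟨B'', hB''⟩ : ∃ B'' : SimpleGraph V, B'' = B \ B' := ⟨_, rfl⟩
  have hsplit : ∑ e ∈ univ.filter (fun e : (V × ZMod q) × (V × ZMod q) =>
      (lift B sh hsh).Adj e.1 e.2), (XX K p {e.1} - XX K p {e.1, e.2}) ≤
      (d * Fintype.card V * q) * ε +
      q * (univ.filter (fun e : V × V => B.Adj e.1 e.2 ∧ ¬ B'.Adj e.1 e.2)).card := by
    rw [← sum_filter_add_sum_filter_not _ (fun e : (V × ZMod q) × (V × ZMod q) =>
      (lift B' sh hsh).Adj e.1 e.2)]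
    refine add_le_add ?_ ?_
    · refine (sum_le_card_nsmul _ _ ε (fun e he => ?_)).trans ?_
      · rw [mem_filter] at he
        exact hgood e he.2
      · rw [nsmul_eq_mul]
        refine mul_le_mul_of_nonneg_right ?_ hε0
        have h1 : (univ.filter (fun e : V × V => B.Adj e.1 e.2)).card =
            d * Fintype.card V := by
          have h2 : (univ.filter (fun e : V × V => B.Adj e.1 e.2)).card =
              ∑ v : V, dg B v := by
            rw [card_filter, Fintype.sum_prod_type]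
            refine sum_congr rfl (fun v _ => ?_)
            unfold dg
            rw [card_filter]
          rw [h2, sum_congr rfl (fun v _ => hd v), sum_const, card_univ, smul_eq_mul, mul_comm]
        have h3 : ((univ.filter (fun e : (V × ZMod q) × (V × ZMod q) =>
            (lift B sh hsh).Adj e.1 e.2)).filter (fun e => (lift B' sh hsh).Adj e.1 e.2)).card ≤
            d * Fintype.card V * q := by
          refine (card_filter_le _ _).trans ?_
          rw [card_adj_lift, h1, mul_comm]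
        exact_mod_cast h3
    · refine (sum_le_card_nsmul _ _ 1 (fun e _ => hbad e)).trans ?_
      rw [nsmul_eq_mul, mul_one]
      have h3 : ((univ.filter (fun e : (V × ZMod q) × (V × ZMod q) =>
          (lift B sh hsh).Adj e.1 e.2)).filter
          (fun e => ¬ (lift B' sh hsh).Adj e.1 e.2)).card ≤
          q * (univ.filter (fun e : V × V => B.Adj e.1 e.2 ∧ ¬ B'.Adj e.1 e.2)).card := by
        have h4 : (univ.filter (fun e : V × V => B.Adj e.1 e.2 ∧ ¬ B'.Adj e.1 e.2)) =
            univ.filter (fun e : V × V => B''.Adj e.1 e.2) := by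
          rw [hB'']
          ext e
          simp only [mem_filter, mem_univ, true_and, SimpleGraph.sdiff_adj]
        rw [h4, ← card_adj_lift (B := B'') (sh := sh) (hsh := hsh)]
        refine card_le_card (fun e he => ?_)
        simp only [mem_filter, mem_univ, true_and] at he ⊢
        obtain ⟨h5, h6⟩ := he
        refine ⟨?_, h5.2⟩
        rw [hB'']
        exact ⟨h5.1, fun h7 => h6 ⟨h7, h5.2⟩⟩
      exact_mod_cast h3
  unfold pseudoExpansion
  rw [← hε]
  have hden : (0 : ℝ) < d * (p * Fintype.card V) := by positivity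
  rw [div_le_iff₀ hden]
  refine hsplit.trans ?_
  obtain ⟨R, hR⟩ : ∃ R : ℝ, R = ((univ.filter (fun e : V × V =>
    B.Adj e.1 e.2 ∧ ¬ B'.Adj e.1 e.2)).card : ℝ) := ⟨_, rfl⟩
  rw [← hR]
  have hR0 : 0 ≤ R := by rw [hR]; positivity
  have h1 : (q * ε + q * R / (d * Fintype.card V)) * (d * (p * Fintype.card V)) =
      p * ((d * Fintype.card V * q) * ε + q * R) := by
    field_simp
  rw [h1]
  have h2 : 0 ≤ (d * Fintype.card V * q) * ε + q * R := by positivity
  nlinarith

end Pool.Agent.Lib.MP_8d8c46_lc.SA
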