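import Pool.Agent.Lib.MP_8d8c46_lc.SA.Cycle
import Pool.Agent.Lib.MP_8d8c46_lc.PermMGF
import Pool.Agent.Lib.MP_8d8c46_lc.Problem

/-!
Random lifts have no sets of small expansion.
-/

set_option autoImplicit false
set_option linter.unusedSectionVars false

open Finset
open scoped Classical

namespace Pool.Agent.Lib.MP_8d8c46_lc.SA

variable {d N q : ℕ} [NeZero q]

/-- the exponential moment for one pair of classes -/
lemma pair_mgf (f g : Fin N → ZMod q → ℝ) (hf : ∀ s i, 0 ≤ f s i ∧ f s i ≤ 1)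
    (hg : ∀ s i, 0 ≤ g s i ∧ g s i ≤ 1) {lam : ℝ} (hl : 0 ≤ lam) :
    ∑ w : Equiv.Perm (Fin N) × (Fin N → ZMod q),
      Real.exp (lam * ∑ s, ∑ i, f s i * g (w.1 s) (i + w.2 s)) ≤
      ((N.factorial : ℝ) * (q : ℝ) ^ N) *
        Real.exp (lam / (q * N) * ((∑ s, ∑ i, f s i) * (∑ t, ∑ i, g t i)) +
          17 * (lam * q) ^ 2 * N) := by
  have hq : (0 : ℝ) < q := by exact_mod_cast Nat.pos_of_ne_zero (NeZero.ne q)
  have hF : ∀ (f : Fin N → ZMod q → ℝ), (∀ s i, 0 ≤ f s i ∧ f s i ≤ 1) → ∀ s,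
      0 ≤ ∑ i, f s i ∧ ∑ i, f s i ≤ q := by
    intro f hf s
    refine ⟨sum_nonneg (fun i _ => (hf s i).1), ?_⟩
    refine (sum_le_sum (fun i _ => (hf s i).2)).trans (le_of_eq ?_)
    rw [sum_const, card_univ, ZMod.card, nsmul_eq_mul, mul_one]
  rw [Fintype.sum_prod_type]
  have h1 : ∀ π : Equiv.Perm (Fin N), ∑ c : Fin N → ZMod q,
      Real.exp (lam * ∑ s, ∑ i, f s i * g (π s) (i + c s)) ≤
      (q : ℝ) ^ N * Real.exp ((lam * q) ^ 2 * N) *
        Real.exp (∑ s, lam / q * ((∑ i, f s i) * (∑ i, g (π s) i))) := by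
    intro π
    have e1 : ∑ c : Fin N → ZMod q,
        Real.exp (lam * ∑ s, ∑ i, f s i * g (π s) (i + c s)) =
        ∏ s, ∑ j : ZMod q, Real.exp (lam * ∑ i, f s i * g (π s) (i + j)) := by
      rw [prod_univ_sum, Fintype.piFinset_univ]
      refine sum_congr rfl (fun c _ => ?_)
      rw [mul_sum, Real.exp_sum]
    rw [e1]
    have e2 : ∀ s, ∑ j : ZMod q, Real.exp (lam * ∑ i, f s i * g (π s) (i + j)) ≤
        (q : ℝ) * Real.exp (lam / q * ((∑ i, f s i) * (∑ i, g (π s) i)) + (lam * q) ^ 2) := by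
      intro s
      have hb : ∀ j : ZMod q, 0 ≤ ∑ i, f s i * g (π s) (i + j) ∧
          ∑ i, f s i * g (π s) (i + j) ≤ q := by
        intro j
        refine ⟨sum_nonneg (fun i _ => mul_nonneg (hf _ _).1 (hg _ _).1), ?_⟩
        refine (sum_le_sum (fun i _ => ?_)).trans (hF f hf s).2
        exact mul_le_of_le_one_right (hf _ _).1 (hg _ _).2
      have h3 := sum_exp_le (fun j : ZMod q => lam * ∑ i, f s i * g (π s) (i + j))
        (C := lam * q) (by
          intro k l
          rw [← mul_sub, abs_mul, abs_of_nonneg hl]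
          refine mul_le_mul_of_nonneg_left ?_ hl
          have h1 := hb k
          have h2 := hb l
          rw [abs_le]
          constructor <;> linarith)
      rw [ZMod.card] at h3
      refine h3.trans (le_of_eq ?_)
      congr 3
      rw [← mul_sum, sum_comm, sum_mul]
      have : ∀ i : ZMod q, ∑ j : ZMod q, f s i * g (π s) (i + j) =
          f s i * ∑ j, g (π s) j := by
        intro i
        rw [← mul_sum]
        congr 1
        exact Equiv.sum_comp (Equiv.addLeft i) (fun j => g (π s) j)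
      rw [sum_congr rfl (fun i _ => this i)]
      ring
    refine (prod_le_prod (fun s _ => sum_nonneg (fun j _ => (Real.exp_pos _).le))
      (fun s _ => e2 s)).trans (le_of_eq ?_)
    rw [prod_mul_distrib, prod_const, card_univ, Fintype.card_fin, ← Real.exp_sum,
      sum_add_distrib, sum_const, card_univ, Fintype.card_fin, nsmul_eq_mul, mul_assoc,
      ← Real.exp_add]
    congr 2
    ring
  have h2 := perm_mgf (B := lam * q) N (fun s t => lam / q * ((∑ i, f s i) * (∑ i, g t i))) (by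
    intro s t
    have h3 := hF f hf s
    have h4 := hF g hg t
    rw [abs_of_nonneg (mul_nonneg (by positivity) (mul_nonneg h3.1 h4.1))]
    calc lam / q * ((∑ i, f s i) * (∑ i, g t i)) ≤ lam / q * (q * q) :=
          mul_le_mul_of_nonneg_left (mul_le_mul h3.2 h4.2 h4.1 hq.le) (by positivity)
      _ = lam * q := by field_simp)
  calc _ ≤ ∑ π : Equiv.Perm (Fin N), (q : ℝ) ^ N * Real.exp ((lam * q) ^ 2 * N) *
        Real.exp (∑ s, lam / q * ((∑ i, f s i) * (∑ i, g (π s) i))) :=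
        sum_le_sum (fun π _ => h1 π)
    _ = (q : ℝ) ^ N * Real.exp ((lam * q) ^ 2 * N) * ∑ π : Equiv.Perm (Fin N),
        Real.exp (∑ s, lam / q * ((∑ i, f s i) * (∑ i, g (π s) i))) := by rw [mul_sum]
    _ ≤ (q : ℝ) ^ N * Real.exp ((lam * q) ^ 2 * N) * ((N.factorial : ℝ) *
        Real.exp ((∑ s, ∑ t, lam / q * ((∑ i, f s i) * (∑ i, g t i))) / N +
          16 * (lam * q) ^ 2 * N)) := mul_le_mul_of_nonneg_left h2 (by positivity)
    _ = _ := by
        have h5 : ∑ s, ∑ t, lam / q * ((∑ i, f s i) * (∑ i, g t i)) =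
            lam / q * ((∑ s, ∑ i, f s i) * (∑ t, ∑ i, g t i)) := by
          rw [sum_mul_sum, mul_sum]
          refine sum_congr rfl (fun s _ => ?_)
          rw [mul_sum]
        rw [h5, mul_comm ((N.factorial : ℝ) * (q : ℝ) ^ N)]
        rw [show lam / (↑q * ↑N) * ((∑ s, ∑ i, f s i) * ∑ t, ∑ i, g t i) +
          17 * (lam * ↑q) ^ 2 * ↑N = (lam * q) ^ 2 * N + (lam / ↑q * ((∑ s, ∑ i, f s i) *
            ∑ t, ∑ i, g t i) / ↑N + 16 * (lam * ↑q) ^ 2 * ↑N) by
          rw [← div_div]; ring, Real.exp_add ((lam * q) ^ 2 * N)]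
        ring

/-- the indicator of `S` -/
noncomputable def ind (S : Finset (BV d N × ZMod q)) (b : Bool) (a : Fin d) (s : Fin N)
    (i : ZMod q) : ℝ := if ((b, a, s), i) ∈ S then 1 else 0

lemma ind_mem (S : Finset (BV d N × ZMod q)) (b : Bool) (a : Fin d) (s : Fin N)
    (i : ZMod q) : 0 ≤ ind S b a s i ∧ ind S b a s i ≤ 1 := by
  unfold ind
  split_ifs <;> norm_num

/-- the number of edges inside `S`, each counted once -/
noncomputable def cnt (ω : Om d N q) (S : Finset (BV d N × ZMod q)) : ℝ :=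
  ∑ e : Fin d × Fin d, ∑ s : Fin N, ∑ i : ZMod q,
    ind S false e.1 s i * ind S true e.2 ((ω e).1 s) (i + (ω e).2 s)

theorem mgf (S : Finset (BV d N × ZMod q)) {lam : ℝ} (hl : 0 ≤ lam) :
    ∑ ω : Om d N q, Real.exp (lam * cnt ω S) ≤
      Fintype.card (Om d N q) * Real.exp (lam / (q * N) *
        ((∑ a, ∑ s, ∑ i, ind S false a s i) * (∑ a, ∑ s, ∑ i, ind S true a s i)) +
          17 * (lam * q) ^ 2 * N * d ^ 2) := by
  have e1 : ∑ ω : Om d N q, Real.exp (lam * cnt ω S) =
      ∏ e : Fin d × Fin d, ∑ w : Equiv.Perm (Fin N) × (Fin N → ZMod q),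
        Real.exp (lam * ∑ s, ∑ i, ind S false e.1 s i * ind S true e.2 (w.1 s) (i + w.2 s)) := by
    rw [prod_univ_sum, Fintype.piFinset_univ]
    refine sum_congr rfl (fun ω _ => ?_)
    unfold cnt
    rw [mul_sum, Real.exp_sum]
  rw [e1]
  refine (prod_le_prod (fun e _ => sum_nonneg (fun j _ => (Real.exp_pos _).le))
    (fun e _ => pair_mgf (ind S false e.1) (ind S true e.2) (ind_mem S false e.1)
      (ind_mem S true e.2) hl)).trans (le_of_eq ?_)
  rw [prod_mul_distrib, prod_const, card_univ, ← Real.exp_sum, sum_add_distrib, sum_const,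
    card_univ, ← mul_sum, Fintype.sum_prod_type]
  have e2 : ∑ x : Fin d, ∑ y : Fin d, (∑ s, ∑ i, ind S false (x, y).1 s i) *
      ∑ t, ∑ i, ind S true (x, y).2 t i =
      (∑ a, ∑ s, ∑ i, ind S false a s i) * (∑ a, ∑ s, ∑ i, ind S true a s i) := by
    rw [sum_mul_sum]
  rw [e2]
  congr 1
  · rw [Fintype.card_fun, Fintype.card_prod, Fintype.card_prod, Fintype.card_perm,
      Fintype.card_fun, Fintype.card_fin, Fintype.card_fin, ZMod.card]
    push_cast
    rfl
  · congr 2
    rw [Fintype.card_prod, Fintype.card_fin, nsmul_eq_mul]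
    push_cast
    ring

lemma inside_le (ω : Om d N q) (S : Finset (BV d N × ZMod q)) :
    (inside (lift (Bg ω) (shf ω) (shf_symm ω)) S : ℝ) ≤ 2 * cnt ω S := by
  obtain ⟨T, hT⟩ : ∃ T : Finset ((Fin d × Fin d) × Fin N × ZMod q), T = univ.filter (fun z =>
    ((false, z.1.1, z.2.1), z.2.2) ∈ S ∧
      ((true, z.1.2, (ω z.1).1 z.2.1), z.2.2 + (ω z.1).2 z.2.1) ∈ S) := ⟨_, rfl⟩
  have h1 : cnt ω S = T.card := by
    rw [hT, card_filter, Fintype.sum_prod_type]
    push_cast
    unfold cnt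
    refine sum_congr rfl (fun e _ => ?_)
    rw [Fintype.sum_prod_type]
    refine sum_congr rfl (fun s _ => sum_congr rfl (fun i _ => ?_))
    unfold ind
    simp only
    split_ifs with h1 h2 h3 h4 <;> simp_all
  have h2 : inside (lift (Bg ω) (shf ω) (shf_symm ω)) S ≤ (T ×ˢ (univ : Finset Bool)).card := by
    unfold inside
    refine (card_le_card (t := (T ×ˢ (univ : Finset Bool)).image (fun z =>
      if z.2 = true then (((false, z.1.1.1, z.1.2.1), z.1.2.2),
        ((true, z.1.1.2, (ω z.1.1).1 z.1.2.1), z.1.2.2 + (ω z.1.1).2 z.1.2.1)) else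
        (((true, z.1.1.2, (ω z.1.1).1 z.1.2.1), z.1.2.2 + (ω z.1.1).2 z.1.2.1),
          ((false, z.1.1.1, z.1.2.1), z.1.2.2)))) ?_).trans card_image_le
    rintro ⟨⟨⟨x, a, s⟩, i⟩, ⟨⟨y, b, t⟩, j⟩⟩ h
    simp only [mem_filter, mem_univ, true_and] at h
    obtain ⟨hx, hy, h3, h4⟩ := h
    rw [mem_image]
    rcases h3 with h3 | h3
    · obtain ⟨h5, h6, h7⟩ := h3
      simp only at h5 h6 h7
      subst h5 h6 h7
      have h8 : j = i + (ω (a, b)).2 s := by
        simpa [shf] using h4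
      subst h8
      refine ⟨(((a, b), s, i), true), ?_, by simp⟩
      simp only [mem_product, mem_univ, and_true, hT, mem_filter, true_and]
      exact ⟨hx, hy⟩
    · obtain ⟨h5, h6, h7⟩ := h3
      simp only at h5 h6 h7
      subst h5 h6 h7
      have h8 : i = j + (ω (b, a)).2 t := by
        have : j = i + -(ω (b, a)).2 t := by simpa [shf] using h4
        rw [this]; ring
      subst h8
      refine ⟨(((b, a), t, j), false), ?_, by simp⟩
      simp only [mem_product, mem_univ, and_true, hT, mem_filter, true_and]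
      exact ⟨hy, hx⟩
  rw [card_product, card_univ, Fintype.card_bool] at h2
  rw [h1]
  have h3 : (inside (lift (Bg ω) (shf ω) (shf_symm ω)) S : ℝ) ≤ ((T.card * 2 : ℕ) : ℝ) := by
    exact_mod_cast h2
  push_cast at h3
  linarith

lemma sum_ind (S : Finset (BV d N × ZMod q)) :
    (∑ a, ∑ s, ∑ i, ind S false a s i) + (∑ a, ∑ s, ∑ i, ind S true a s i) = S.card := by
  have h1 : (S.card : ℝ) = ∑ x : BV d N × ZMod q, if x ∈ S then (1 : ℝ) else 0 := by
    rw [sum_boole]
    congr 2
    ext x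
    simp
  rw [h1, Fintype.sum_prod_type, Fintype.sum_prod_type, Fintype.sum_bool, add_comm]
  congr 1 <;> rw [Fintype.sum_prod_type] <;> rfl

/-- the number of choices for which the set `S` has small expansion -/
lemma card_bad (S : Finset (BV d N × ZMod q)) {p : ℕ} {η κ : ℝ} (hN : 0 < N)
    (hS : S.card = 2 * d * N * p) (hη : (p : ℝ) / q < η)
    (hκ : κ = ((p : ℝ) / q * (η - p / q)) ^ 2 / 68) :
    ((univ.filter fun ω : Om d N q => η * (d * S.card) <
      (inside (lift (Bg ω) (shf ω) (shf_symm ω)) S : ℝ)).card : ℝ) ≤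
      Fintype.card (Om d N q) * Real.exp (-(N * d ^ 2 * κ)) := by
  have hq : (0 : ℝ) < q := by exact_mod_cast Nat.pos_of_ne_zero (NeZero.ne q)
  have hN' : (0 : ℝ) < N := by exact_mod_cast hN
  obtain ⟨lam, hlam⟩ : ∃ lam : ℝ, lam = p * (η - p / q) / (34 * q ^ 2) := ⟨_, rfl⟩
  have hl : 0 ≤ lam := by
    rw [hlam]
    have : 0 ≤ η - p / q := by linarith
    positivity
  obtain ⟨x, hx⟩ : ∃ x : ℝ, x = ∑ a, ∑ s, ∑ i, ind S false a s i := ⟨_, rfl⟩
  obtain ⟨y, hy⟩ : ∃ y : ℝ, y = ∑ a, ∑ s, ∑ i, ind S true a s i := ⟨_, rfl⟩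
  have hxy : x + y = 2 * d * N * p := by
    rw [hx, hy, sum_ind, hS]; push_cast; ring
  have hxy2 : x * y ≤ (d * N * p) ^ 2 := by
    have h0 : x + y = 2 * (d * N * p : ℝ) := by rw [hxy]; ring
    generalize (d * N * p : ℝ) = z at h0 ⊢
    have hz : z = (x + y) / 2 := by linarith
    rw [hz]
    nlinarith [sq_nonneg (x - y)]
  have h1 := mgf S hl
  rw [← hx, ← hy] at h1
  have h2 : ((univ.filter fun ω : Om d N q => η * (d * S.card) <
      (inside (lift (Bg ω) (shf ω) (shf_symm ω)) S : ℝ)).card : ℝ) *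
      Real.exp (lam * (η * (d ^ 2 * N * p))) ≤ ∑ ω : Om d N q, Real.exp (lam * cnt ω S) := by
    rw [← nsmul_eq_mul, ← sum_const]
    refine (sum_le_sum (fun ω hω => ?_)).trans (sum_le_sum_of_subset_of_nonneg (subset_univ _)
      (fun ω _ _ => (Real.exp_pos (lam * cnt ω S)).le))
    refine Real.exp_le_exp.2 (mul_le_mul_of_nonneg_left ?_ hl)
    rw [mem_filter] at hω
    have h3 := hω.2.trans_le (inside_le ω S)
    rw [hS] at h3
    push_cast at h3
    nlinarith
  have h3 : lam / (q * N) * (x * y) ≤ lam * (p / q * (d ^ 2 * N * p)) := by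
    calc lam / (q * N) * (x * y) ≤ lam / (q * N) * (d * N * p) ^ 2 :=
          mul_le_mul_of_nonneg_left hxy2 (by positivity)
      _ = _ := by field_simp
  have h4 : Real.exp (lam / (q * N) * (x * y) + 17 * (lam * q) ^ 2 * N * d ^ 2) ≤
      Real.exp (-(N * d ^ 2 * κ)) * Real.exp (lam * (η * (d ^ 2 * N * p))) := by
    rw [← Real.exp_add]
    refine Real.exp_le_exp.2 ?_
    have h5 : 17 * (lam * q) ^ 2 * N * d ^ 2 + N * d ^ 2 * κ =
        lam * (η * (d ^ 2 * N * p)) - lam * (p / q * (d ^ 2 * N * p)) := by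
      rw [hκ, hlam]
      field_simp
      ring
    linarith
  have h5 := Real.exp_pos (lam * (η * (d ^ 2 * N * p)))
  have h6 := (h2.trans h1).trans (mul_le_mul_of_nonneg_left h4 (Nat.cast_nonneg _))
  rw [← mul_assoc (Fintype.card (Om d N q) : ℝ)] at h6
  exact le_of_mul_le_mul_right h6 h5

/-- There are good choices. -/
theorem exists_good {p M : ℕ} {η κ : ℝ} (hN : 2 ≤ N) (hMN : 2 * M ≤ N) (hd : 1 ≤ d)
    (hη : (p : ℝ) / q < η) (hκ : κ = ((p : ℝ) / q * (η - p / q)) ^ 2 / 68)
    (hdκ : 2 * q + 1 ≤ d * κ) :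
    ∃ ω : Om d N q, (∀ S : Finset (BV d N × ZMod q), S.card = 2 * d * N * p →
      (inside (lift (Bg ω) (shf ω) (shf_symm ω)) S : ℝ) ≤ η * (d * S.card)) ∧
      ((univ.filter (fun e : BV d N × BV d N =>
        (Bg ω).Adj e.1 e.2 ∧ ¬ (Bs ω M).Adj e.1 e.2)).card : ℝ) ≤
        4 * (2 * M ^ 2 * (4 * d + 1) ^ M) := by
  have hN0 : 0 < N := by omega
  have hN' : (2 : ℝ) ≤ N := by exact_mod_cast hN
  have hd' : (1 : ℝ) ≤ d := by exact_mod_cast hd
  have hO : (0 : ℝ) < Fintype.card (Om d N q) := by exact_mod_cast Fintype.card_pos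
  by_contra hcon
  push Not at hcon
  obtain ⟨bad, hbad⟩ : ∃ bad : Finset (BV d N × ZMod q) → Finset (Om d N q), ∀ S, bad S =
    univ.filter fun ω : Om d N q => η * (d * S.card) <
      (inside (lift (Bg ω) (shf ω) (shf_symm ω)) S : ℝ) := ⟨_, fun _ => rfl⟩
  obtain ⟨U, hU⟩ : ∃ U : Finset (Om d N q), U = (univ.filter fun S : Finset (BV d N × ZMod q) =>
    S.card = 2 * d * N * p).biUnion bad := ⟨_, rfl⟩
  obtain ⟨W, hW⟩ : ∃ W : Finset (Om d N q), W = univ.filter fun ω : Om d N q =>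
    4 * (2 * M ^ 2 * (4 * d + 1) ^ M) < ((univ.filter (fun e : BV d N × BV d N =>
        (Bg ω).Adj e.1 e.2 ∧ ¬ (Bs ω M).Adj e.1 e.2)).card : ℝ) := ⟨_, rfl⟩
  have hUW : (univ : Finset (Om d N q)) ⊆ U ∪ W := by
    intro ω _
    rw [mem_union]
    by_cases h : ω ∈ U
    · exact Or.inl h
    · right
      rw [hW, mem_filter]
      refine ⟨mem_univ _, hcon ω (fun S hS => ?_)⟩
      by_contra h2
      push Not at h2
      refine h ?_
      rw [hU, mem_biUnion]
      refine ⟨S, by simp [hS], ?_⟩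
      rw [hbad, mem_filter]
      exact ⟨mem_univ _, h2⟩
  have hUc : (U.card : ℝ) ≤ Fintype.card (Om d N q) / 4 := by
    have h1 : (U.card : ℝ) ≤ ∑ S ∈ univ.filter (fun S : Finset (BV d N × ZMod q) =>
        S.card = 2 * d * N * p), ((bad S).card : ℝ) := by
      rw [hU]
      exact_mod_cast card_biUnion_le
    have h2 : ∑ S ∈ univ.filter (fun S : Finset (BV d N × ZMod q) =>
        S.card = 2 * d * N * p), ((bad S).card : ℝ) ≤
        ∑ S ∈ univ.filter (fun S : Finset (BV d N × ZMod q) =>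
        S.card = 2 * d * N * p), (Fintype.card (Om d N q) * Real.exp (-(N * d ^ 2 * κ))) := by
      refine sum_le_sum (fun S hS => ?_)
      rw [mem_filter] at hS
      rw [hbad]
      exact card_bad S hN0 hS.2 hη hκ
    rw [sum_const, nsmul_eq_mul] at h2
    have h3 : ((univ.filter (fun S : Finset (BV d N × ZMod q) =>
        S.card = 2 * d * N * p)).card : ℝ) ≤ 2 ^ (2 * d * N * q) := by
      have : (univ.filter (fun S : Finset (BV d N × ZMod q) =>
        S.card = 2 * d * N * p)).card ≤ 2 ^ (2 * d * N * q) := by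
        refine (card_le_univ _).trans (le_of_eq ?_)
        rw [Fintype.card_finset, Fintype.card_prod, Fintype.card_prod, Fintype.card_prod,
          Fintype.card_bool, Fintype.card_fin, Fintype.card_fin, ZMod.card]
        congr 1
        ring
      exact_mod_cast this
    have h4 : (2 : ℝ) ^ (2 * d * N * q) ≤ Real.exp (2 * d * N * q) := by
      have h5 : (2 : ℝ) ≤ Real.exp 1 := by
        have := Real.add_one_le_exp (1 : ℝ); linarith
      calc (2 : ℝ) ^ (2 * d * N * q) ≤ (Real.exp 1) ^ (2 * d * N * q) :=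
            pow_le_pow_left₀ (by norm_num) h5 _
        _ = _ := by
            rw [← Real.exp_nat_mul]; push_cast; ring_nf
    have h5 : Real.exp (2 * d * N * q) * Real.exp (-(N * d ^ 2 * κ)) ≤ 1 / 4 := by
      rw [← Real.exp_add]
      have h6 : 2 * d * N * q + -(N * d ^ 2 * κ) ≤ -2 := by
        have h7 : (N : ℝ) * d * (2 * q + 1) ≤ N * d * (d * κ) :=
          mul_le_mul_of_nonneg_left hdκ (by positivity)
        have h8 : (2 : ℝ) * 1 ≤ N * d := mul_le_mul hN' hd' (by norm_num) (by positivity)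
        nlinarith
      refine (Real.exp_le_exp.2 h6).trans ?_
      have h9 : (4 : ℝ) ≤ Real.exp 2 := by
        have h10 : (2 : ℝ) ≤ Real.exp 1 := by
          have := Real.add_one_le_exp (1 : ℝ); linarith
        have : Real.exp 2 = Real.exp 1 * Real.exp 1 := by rw [← Real.exp_add]; norm_num
        rw [this]; nlinarith
      rw [Real.exp_neg, one_div]
      exact inv_anti₀ (by norm_num) h9
    calc (U.card : ℝ) ≤ _ := h1.trans h2
      _ ≤ Real.exp (2 * d * N * q) *
          (Fintype.card (Om d N q) * Real.exp (-(N * d ^ 2 * κ))) :=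
          mul_le_mul_of_nonneg_right (h3.trans h4) (by positivity)
      _ = Fintype.card (Om d N q) * (Real.exp (2 * d * N * q) *
          Real.exp (-(N * d ^ 2 * κ))) := by ring
      _ ≤ Fintype.card (Om d N q) * (1 / 4) := mul_le_mul_of_nonneg_left h5 hO.le
      _ = _ := by ring
  have hWc : (W.card : ℝ) ≤ Fintype.card (Om d N q) / 4 := by
    obtain ⟨R, hR⟩ : ∃ R : ℝ, R = 2 * M ^ 2 * (4 * d + 1) ^ M := ⟨_, rfl⟩
    have h1 := sum_removed (d := d) (q := q) hMN hN0
    rw [← hR] at h1 hW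
    have hR0 : 0 ≤ R := by rw [hR]; positivity
    rcases hR0.eq_or_lt with h0 | h0
    · have h2 : W = ∅ := by
        rw [← h0, mul_zero] at h1
        have h3 : ∀ ω : Om d N q, ((univ.filter (fun e : BV d N × BV d N =>
            (Bg ω).Adj e.1 e.2 ∧ ¬ (Bs ω M).Adj e.1 e.2)).card : ℝ) = 0 := by
          intro ω
          have h4 := (sum_eq_zero_iff_of_nonneg (fun ω _ => Nat.cast_nonneg _)).1
            (le_antisymm h1 (sum_nonneg (fun ω _ => Nat.cast_nonneg _)))
          exact h4 ω (mem_univ _)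
        rw [hW, filter_eq_empty_iff]
        intro ω _
        rw [h3 ω, ← h0]
        simp
      rw [h2, card_empty, Nat.cast_zero]
      linarith
    · have h2 : (W.card : ℝ) * (4 * R) ≤ ∑ ω : Om d N q,
          ((univ.filter (fun e : BV d N × BV d N =>
            (Bg ω).Adj e.1 e.2 ∧ ¬ (Bs ω M).Adj e.1 e.2)).card : ℝ) := by
        rw [← nsmul_eq_mul, ← sum_const]
        refine (sum_le_sum (fun ω hω => ?_)).trans (sum_le_sum_of_subset_of_nonneg
          (subset_univ W) (fun ω _ _ => Nat.cast_nonneg _))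
        rw [hW, mem_filter] at hω
        exact hω.2.le
      have h3 : (W.card : ℝ) * 4 * R ≤ Fintype.card (Om d N q) * R := by
        linarith
      have h4 := le_of_mul_le_mul_right h3 h0
      linarith
  have h1 := (card_le_card hUW).trans (card_union_le _ _)
  have h2 : (Fintype.card (Om d N q) : ℝ) ≤ U.card + W.card := by exact_mod_cast h1
  linarith

end Pool.Agent.Lib.MP_8d8c46_lc.SA
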