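import Mathlib

/-!
The Sherali–Adams relaxations of the problem of finding a set of `s` vertices of small expansion.
-/

set_option autoImplicit false

open Finset
open scoped Classical

namespace Pool.Agent.Lib.MP_8d8c46_lc.SA

/-- `X` is a feasible solution of the level `k` Sherali–Adams relaxation of the constraint that
a set of vertices has exactly `s` elements. `X T` is the pseudo-probability that the set
contains `T`. -/
structure SheraliAdams {V : Type*} [Fintype V] [DecidableEq V] (k : ℕ) (s : ℝ) (X : Finset V → ℝ) : Prop where
  /-- normalisation -/
  one : X ∅ = 1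
  /-- the pseudo-probability of containing `S` and avoiding `T` is nonnegative -/
  nonneg : ∀ S T : Finset V, Disjoint S T → (S ∪ T).card ≤ k →
    0 ≤ ∑ U ∈ T.powerset, (-1) ^ U.card * X (S ∪ U)
  /-- the size constraint `∑ v, x v = s`, multiplied by the monomial of `T` -/
  size : ∀ T : Finset V, T.card + 1 ≤ k → ∑ v, X (insert v T) = s * X T

/-- The expansion of the pseudo-set `X` of `s` vertices in the `d`-regular graph `G`: the
pseudo-expectation of the number of cut edges, divided by `d * s`. The sum is over the ordered
pairs `(u, v)` of adjacent vertices, and `X {u} - X {u, v}` is the pseudo-probability that `u` is in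
the set and `v` is not. -/
noncomputable def pseudoExpansion {V : Type*} [Fintype V] [DecidableEq V] (G : SimpleGraph V)
    (d : ℕ) (s : ℝ) (X : Finset V → ℝ) : ℝ :=
  (∑ e ∈ univ.filter (fun e : V × V => G.Adj e.1 e.2), (X {e.1} - X {e.1, e.2})) / (d * s)

end Pool.Agent.Lib.MP_8d8c46_lc.SA
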