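import Mathlib

/-!
Selecting the `p` largest of finitely many real numbers.
-/

set_option autoImplicit false

open Finset
open scoped Classical

namespace Pool.Agent.Lib.MP_8d8c46_lc.SA

variable {q : ℕ} [NeZero q]

/-- sorting key: decreasing in the value, ties are broken by the index -/
noncomputable def key (x : ZMod q → ℝ) (i : ZMod q) : ℝ ×ₗ ℕ := toLex (-x i, i.val)

lemma key_injective (x : ZMod q → ℝ) : Function.Injective (key x) := by
  intro i j h
  unfold key at h
  have h1 : (-x i, i.val) = (-x j, j.val) := toLex.injective h
  exact ZMod.val_injective q (Prod.mk.inj h1).2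

/-- the number of entries that come before entry `i` -/
noncomputable def rank (x : ZMod q → ℝ) (i : ZMod q) : ℕ :=
  (univ.filter fun j => key x j < key x i).card

/-- entry `i` is among the `p` largest entries -/
def sel (p : ℕ) (x : ZMod q → ℝ) (i : ZMod q) : Prop := rank x i < p

lemma rank_lt {x : ZMod q → ℝ} {i j : ZMod q} (h : key x i < key x j) : rank x i < rank x j := by
  unfold rank
  refine card_lt_card ?_
  rw [ssubset_iff_of_subset]
  · exact ⟨i, by simp [h], by simp⟩
  · intro l hl
    rw [mem_filter] at hl ⊢
    exact ⟨hl.1, hl.2.trans h⟩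

lemma rank_le {x : ZMod q → ℝ} {i j : ZMod q} (h : key x i ≤ key x j) : rank x i ≤ rank x j := by
  rcases h.lt_or_eq with h | h
  · exact (rank_lt h).le
  · rw [key_injective x h]

lemma rank_injective (x : ZMod q → ℝ) : Function.Injective (rank x) := by
  intro i j h
  rcases lt_trichotomy (key x i) (key x j) with h1 | h1 | h1
  · exact absurd h (rank_lt h1).ne
  · exact key_injective x h1
  · exact absurd h (rank_lt h1).ne'

lemma rank_lt_card (x : ZMod q → ℝ) (i : ZMod q) : rank x i < q := by
  have h : rank x i < (univ : Finset (ZMod q)).card := by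
    unfold rank
    refine card_lt_card ?_
    rw [ssubset_iff_of_subset (subset_univ _)]
    exact ⟨i, mem_univ _, by simp⟩
  rwa [card_univ, ZMod.card] at h

lemma card_sel {p : ℕ} (hp : p ≤ q) (x : ZMod q → ℝ) :
    (univ.filter fun i => sel p x i).card = p := by
  have h1 : (univ : Finset (ZMod q)).image (rank x) = range q := by
    refine eq_of_subset_of_card_le ?_ ?_
    · intro r hr
      obtain ⟨i, _, rfl⟩ := mem_image.1 hr
      exact mem_range.2 (rank_lt_card x i)
    · rw [card_range, card_image_of_injective _ (rank_injective x), card_univ, ZMod.card]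
  have h2 : (univ.filter fun i => sel p x i).image (rank x) = range p := by
    ext r
    simp only [mem_image, mem_filter, mem_univ, true_and, mem_range]
    constructor
    · rintro ⟨i, hi, rfl⟩
      exact hi
    · intro hr
      have h3 : r ∈ (univ : Finset (ZMod q)).image (rank x) := by
        rw [h1]; exact mem_range.2 (by omega)
      obtain ⟨i, _, hi⟩ := mem_image.1 h3
      exact ⟨i, by unfold sel; omega, hi⟩
  rw [← card_image_of_injective _ (rank_injective x), h2, card_range]

lemma le_of_key_lt {x : ZMod q → ℝ} {i j : ZMod q} (h : key x i < key x j) : x j ≤ x i := by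
  unfold key at h
  rw [Prod.Lex.toLex_lt_toLex] at h
  rcases h with h | h
  · simp only at h; linarith
  · have := h.1
    simp only at this
    linarith

/-- If the selections from `x` and from `y` differ, some pair is in opposite orders. -/
lemma exists_swap {p : ℕ} (hp : p ≤ q) (x y : ZMod q → ℝ) (π : ZMod q ≃ ZMod q) {i : ZMod q}
    (h1 : sel p x i) (h2 : ¬ sel p y (π i)) :
    ∃ j, j ≠ i ∧ x j ≤ x i ∧ y (π i) ≤ y (π j) := by
  obtain ⟨A, hA⟩ : ∃ A, A = univ.filter fun i => sel p x i := ⟨_, rfl⟩
  obtain ⟨B, hB⟩ : ∃ B, B = univ.filter fun i => sel p y (π i) := ⟨_, rfl⟩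
  have hAc : A.card = p := by rw [hA]; exact card_sel hp x
  have hBc : B.card = p := by
    rw [← card_sel hp y, hB]
    refine card_bij (fun j _ => π j) ?_ ?_ ?_
    · intro j hj
      simpa using hj
    · intro a _ b _ h
      exact π.injective h
    · intro b hb
      exact ⟨π.symm b, by simpa using hb, by simp⟩
  have h3 : ∃ j ∈ B, j ∉ A := by
    by_contra hcon
    push Not at hcon
    have h4 : B = A := eq_of_subset_of_card_le hcon (by rw [hAc, hBc])
    have h5 : i ∈ A := by rw [hA]; simpa using h1
    rw [← h4, hB] at h5
    simp only [mem_filter, mem_univ, true_and] at h5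
    exact h2 h5
  obtain ⟨j, hjB, hjA⟩ := h3
  rw [hB] at hjB
  rw [hA] at hjA
  simp only [mem_filter, mem_univ, true_and] at hjA hjB
  refine ⟨j, ?_, ?_, ?_⟩
  · rintro rfl
    exact hjA h1
  · refine le_of_key_lt ?_
    by_contra hcon
    rw [not_lt] at hcon
    have := rank_le hcon
    unfold sel at h1 hjA
    omega
  · refine le_of_key_lt ?_
    by_contra hcon
    rw [not_lt] at hcon
    have := rank_le hcon
    unfold sel at h2 hjB
    omega

lemma measurableSet_sel (p : ℕ) (i : ZMod q) : MeasurableSet {x : ZMod q → ℝ | sel p x i} := by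
  have h1 : ∀ j : ZMod q, MeasurableSet {x : ZMod q → ℝ | key x j < key x i} := by
    intro j
    have : {x : ZMod q → ℝ | key x j < key x i} =
        {x | -x j < -x i} ∪ ({x | -x j = -x i} ∩ {_x | j.val < i.val}) := by
      ext x
      simp only [Set.mem_ofPred_eq, Set.mem_union, Set.mem_inter_iff]
      unfold key
      rw [Prod.Lex.toLex_lt_toLex]
    rw [this]
    refine (measurableSet_lt (by fun_prop) (by fun_prop)).union
      ((measurableSet_eq_fun (by fun_prop) (by fun_prop)).inter (MeasurableSet.const _))
  have h2 : Measurable fun x : ZMod q → ℝ => rank x i := by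
    have : (fun x : ZMod q → ℝ => rank x i) =
        fun x => ∑ j, if key x j < key x i then 1 else 0 := by
      funext x
      unfold rank
      rw [card_filter]
    rw [this]
    exact Finset.measurable_sum _ (fun j _ => Measurable.ite (h1 j) measurable_const
      measurable_const)
  exact measurableSet_lt h2 measurable_const

end Pool.Agent.Lib.MP_8d8c46_lc.SA
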