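import Pool.Agent.Lib.MP_8d8c46_lc.SA.Defs
import Pool.Agent.Lib.MP_8d8c46_lc.SA.Select

/-!
Sherali–Adams solutions from kernels that are positive semidefinite on small sets.
-/

set_option autoImplicit false
set_option linter.unusedSectionVars false

open Finset MeasureTheory ProbabilityTheory
open scoped Classical

namespace Pool.Agent.Lib.MP_8d8c46_lc.SA

variable {V : Type*} [Fintype V] {q : ℕ} [NeZero q]

/-- all vertices over `B` -/
noncomputable def cl (q : ℕ) [NeZero q] (B : Finset V) : Finset (V × ZMod q) := B ×ˢ univ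

lemma mem_cl {B : Finset V} {y : V × ZMod q} : y ∈ cl q B ↔ y.1 ∈ B := by
  unfold cl
  simp

lemma cl_mono {B B' : Finset V} (h : B ⊆ B') : cl q B ⊆ cl q B' := by
  intro y hy
  rw [mem_cl] at hy ⊢
  exact h hy

lemma card_cl (B : Finset V) : (cl q B).card = B.card * q := by
  unfold cl
  rw [card_product, card_univ, ZMod.card]

/-- the covariance matrix -/
noncomputable def cov (K : V × ZMod q → V × ZMod q → ℝ) (B : Finset V) :
    Matrix (cl q B) (cl q B) ℝ :=
  Matrix.of fun u v => K (u : V × ZMod q) (v : V × ZMod q)

/-- the local Gaussian measure -/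
noncomputable def gm (K : V × ZMod q → V × ZMod q → ℝ) (B : Finset V) :
    Measure (EuclideanSpace ℝ (cl q B)) :=
  multivariateGaussian 0 (cov K B)

instance (K : V × ZMod q → V × ZMod q → ℝ) (B : Finset V) : IsProbabilityMeasure (gm K B) := by
  unfold gm
  infer_instance

instance (K : V × ZMod q → V × ZMod q → ℝ) (B : Finset V) : IsGaussian (gm K B) := by
  unfold gm
  infer_instance

/-- extension by zero -/
noncomputable def ext (B : Finset V) (x : EuclideanSpace ℝ (cl q B)) (y : V × ZMod q) : ℝ :=
  if h : y ∈ cl q B then x ⟨y, h⟩ else 0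

lemma measurable_ext (B : Finset V) (y : V × ZMod q) :
    Measurable fun x : EuclideanSpace ℝ (cl q B) => ext B x y := by
  unfold ext
  split_ifs
  · fun_prop
  · exact measurable_const

/-- is `y` selected? -/
noncomputable def one (p : ℕ) (z : V × ZMod q → ℝ) (y : V × ZMod q) : ℝ :=
  if sel p (fun j => z (y.1, j)) y.2 then 1 else 0

lemma one_cases (p : ℕ) (z : V × ZMod q → ℝ) (y : V × ZMod q) : one p z y = 0 ∨ one p z y = 1 := by
  unfold one
  split_ifs
  · exact Or.inr rfl
  · exact Or.inl rfl

/-- are all elements of `T` selected? -/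
noncomputable def indf (p : ℕ) (T : Finset (V × ZMod q)) (z : V × ZMod q → ℝ) : ℝ :=
  ∏ y ∈ T, one p z y

lemma indf_nonneg (p : ℕ) (T : Finset (V × ZMod q)) (z : V × ZMod q → ℝ) : 0 ≤ indf p T z :=
  prod_nonneg (fun y _ => by rcases one_cases p z y with h | h <;> rw [h] <;> norm_num)

lemma indf_le_one (p : ℕ) (T : Finset (V × ZMod q)) (z : V × ZMod q → ℝ) : indf p T z ≤ 1 :=
  prod_le_one (fun y _ => by rcases one_cases p z y with h | h <;> rw [h] <;> norm_num)
    (fun y _ => by rcases one_cases p z y with h | h <;> rw [h] <;> norm_num)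

lemma indf_insert (p : ℕ) (T : Finset (V × ZMod q)) (z : V × ZMod q → ℝ) (y : V × ZMod q) :
    indf p (insert y T) z = one p z y * indf p T z := by
  unfold indf
  by_cases h : y ∈ T
  · rw [insert_eq_of_mem h, ← mul_prod_erase T _ h, ← mul_assoc]
    congr 1
    rcases one_cases p z y with h | h <;> rw [h] <;> norm_num
  · rw [prod_insert h]

lemma indf_union (p : ℕ) {S T : Finset (V × ZMod q)} (h : Disjoint S T) (z : V × ZMod q → ℝ) :
    indf p (S ∪ T) z = indf p S z * indf p T z := by
  unfold indf
  rw [prod_union h]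

lemma measurable_indf (p : ℕ) (T : Finset (V × ZMod q)) (B : Finset V) :
    Measurable fun x : EuclideanSpace ℝ (cl q B) => indf p T (ext B x) := by
  unfold indf
  refine Finset.measurable_prod _ (fun y _ => ?_)
  unfold one
  refine Measurable.ite ?_ measurable_const measurable_const
  have h : Measurable fun x : EuclideanSpace ℝ (cl q B) => (fun j => ext B x (y.1, j)) :=
    measurable_pi_iff.2 (fun j => measurable_ext B _)
  exact h (measurableSet_sel p y.2)

lemma integrable_indf (K : V × ZMod q → V × ZMod q → ℝ) (p : ℕ) (T : Finset (V × ZMod q))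
    (B : Finset V) : Integrable (fun x => indf p T (ext B x)) (gm K B) := by
  refine Integrable.of_bound (measurable_indf p T B).aestronglyMeasurable 1
    (Filter.Eventually.of_forall (fun x => ?_))
  rw [Real.norm_eq_abs, abs_of_nonneg (indf_nonneg _ _ _)]
  exact indf_le_one _ _ _

/-- The values only depend on the coordinates over `T`. -/
lemma integral_indf_eq {K : V × ZMod q → V × ZMod q → ℝ} {B B' : Finset V} (hBB : B ⊆ B')
    (hpsd : (cov K B').PosSemidef) (p : ℕ) {T : Finset (V × ZMod q)}
    (hT : ∀ y ∈ T, y.1 ∈ B) :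
    ∫ x, indf p T (ext B' x) ∂(gm K B') = ∫ x, indf p T (ext B x) ∂(gm K B) := by
  have h1 := measurePreserving_restrict₂_multivariateGaussian (μ := 0) hpsd
    (cl_mono (q := q) hBB)
  have h2 : (multivariateGaussian ((0 : EuclideanSpace ℝ (cl q B')).restrict₂ (cl_mono hBB))
      ((cov K B').submatrix (fun i : cl q B => ⟨i.1, cl_mono hBB i.2⟩)
        (fun i : cl q B => ⟨i.1, cl_mono hBB i.2⟩))) = gm K B := by
    unfold gm
    rw [map_zero]
    rfl
  rw [h2] at h1
  rw [← h1.map_eq, integral_map h1.measurable.aemeasurable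
    (measurable_indf p T B).aestronglyMeasurable]
  unfold gm
  congr 1
  funext x
  unfold indf
  refine prod_congr rfl (fun y hy => ?_)
  unfold one
  have h3 : (fun j => ext B' x (y.1, j)) =
      fun j => ext B (EuclideanSpace.restrict₂ (cl_mono hBB) x) (y.1, j) := by
    funext j
    unfold ext
    have h4 : (y.1, j) ∈ cl q B := mem_cl.2 (hT y hy)
    rw [dif_pos h4, dif_pos (cl_mono hBB h4)]
    rfl
  rw [h3]

/-- the pseudo-probabilities -/
noncomputable def XX (K : V × ZMod q → V × ZMod q → ℝ) (p : ℕ) (T : Finset (V × ZMod q)) : ℝ :=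
  ∫ x, indf p T (ext (T.image Prod.fst) x) ∂(gm K (T.image Prod.fst))

lemma XX_eq {K : V × ZMod q → V × ZMod q → ℝ} {B : Finset V} (hpsd : (cov K B).PosSemidef)
    (p : ℕ) {T : Finset (V × ZMod q)} (hT : ∀ y ∈ T, y.1 ∈ B) :
    XX K p T = ∫ x, indf p T (ext B x) ∂(gm K B) := by
  unfold XX
  rw [integral_indf_eq (B := T.image Prod.fst) (B' := B) ?_ hpsd p ?_]
  · intro v hv
    obtain ⟨y, hy, rfl⟩ := mem_image.1 hv
    exact hT y hy
  · intro y hy
    exact mem_image_of_mem _ hy

/-- The pseudo-probabilities are a solution of the Sherali–Adams relaxation. -/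
theorem sheraliAdams_XX {K : V × ZMod q → V × ZMod q → ℝ} {k : ℕ}
    (hpsd : ∀ B : Finset V, B.card ≤ k → (cov K B).PosSemidef) {p : ℕ} (hp : p ≤ q) :
    SheraliAdams k (p * Fintype.card V) (XX K p) := by
  refine ⟨?_, ?_, ?_⟩
  · unfold XX indf
    simp only [prod_empty, integral_const, probReal_univ, smul_eq_mul, mul_one]
  · intro S T hST hk
    obtain ⟨B, hB⟩ : ∃ B, B = (S ∪ T).image Prod.fst := ⟨_, rfl⟩
    have hBk : (cov K B).PosSemidef := hpsd B (by
      rw [hB]; exact card_image_le.trans hk)
    have h1 : ∀ U ∈ T.powerset, (-1 : ℝ) ^ U.card * XX K p (S ∪ U) =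
        ∫ x, (-1 : ℝ) ^ U.card * indf p (S ∪ U) (ext B x) ∂(gm K B) := by
      intro U hU
      rw [mem_powerset] at hU
      rw [XX_eq hBk p, integral_const_mul]
      intro y hy
      rw [hB]
      exact mem_image_of_mem _ (union_subset_union_right hU hy)
    rw [sum_congr rfl h1, ← integral_finsetSum]
    · refine integral_nonneg (fun x => ?_)
      have h2 : ∑ U ∈ T.powerset, (-1 : ℝ) ^ U.card * indf p (S ∪ U) (ext B x) =
          indf p S (ext B x) * ∏ y ∈ T, (1 - one p (ext B x) y) := by
        have h3 : ∏ y ∈ T, (1 - one p (ext B x) y) =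
            ∑ U ∈ T.powerset, (-1 : ℝ) ^ U.card * indf p U (ext B x) := by
          have h4 : ∀ y ∈ T, (1 - one p (ext B x) y) = -one p (ext B x) y + 1 := by
            intro y _; ring
          rw [prod_congr rfl h4, prod_add]
          refine sum_congr rfl (fun U _ => ?_)
          rw [prod_const_one, mul_one, prod_neg]
          rfl
        rw [h3, mul_sum]
        refine sum_congr rfl (fun U hU => ?_)
        rw [mem_powerset] at hU
        rw [indf_union p (disjoint_of_subset_right hU hST)]
        ring
      show 0 ≤ ∑ U ∈ T.powerset, (-1 : ℝ) ^ U.card * indf p (S ∪ U) (ext B x)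
      rw [h2]
      refine mul_nonneg (indf_nonneg _ _ _) (prod_nonneg (fun y _ => ?_))
      rcases one_cases p (ext B x) y with h | h <;> rw [h] <;> norm_num
    · intro U _
      exact (integrable_indf K p _ B).const_mul _
  · intro T hk
    have hcol : ∀ v : V, ∑ i : ZMod q, XX K p (insert (v, i) T) = p * XX K p T := by
      intro v
      obtain ⟨B, hB⟩ : ∃ B, B = insert v (T.image Prod.fst) := ⟨_, rfl⟩
      have hBk : (cov K B).PosSemidef := hpsd B (by
        rw [hB]
        refine (card_insert_le _ _).trans (le_trans ?_ hk)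
        exact Nat.add_le_add_right card_image_le 1)
      have h1 : ∀ i : ZMod q, XX K p (insert (v, i) T) =
          ∫ x, one p (ext B x) (v, i) * indf p T (ext B x) ∂(gm K B) := by
        intro i
        rw [XX_eq hBk p]
        · congr 1
          funext x
          exact indf_insert p T _ _
        · intro y hy
          rw [hB]
          rcases mem_insert.1 hy with rfl | hy
          · exact mem_insert_self _ _
          · exact mem_insert_of_mem (mem_image_of_mem _ hy)
      rw [sum_congr rfl (fun i _ => h1 i), ← integral_finsetSum]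
      · rw [XX_eq hBk p (T := T), ← integral_const_mul]
        · congr 1
          funext x
          rw [← sum_mul]
          congr 1
          unfold one
          simp only
          rw [sum_boole, card_sel hp]
        · intro y hy
          rw [hB]
          exact mem_insert_of_mem (mem_image_of_mem _ hy)
      · intro i _
        have := integrable_indf K p (insert (v, i) T) B
        simp only [indf_insert] at this
        exact this
    rw [Fintype.sum_prod_type, sum_congr rfl (fun v _ => hcol v), sum_const, card_univ,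
      nsmul_eq_mul]
    ring

end Pool.Agent.Lib.MP_8d8c46_lc.SA
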