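import Pool.Agent.Lib.MP_8d8c46_lc.SA.Rand
import Pool.Agent.Lib.MP_8d8c46_lc.Mg.G021

/-!
Sherali–Adams relaxations with `n ^ c` rounds do not refute small-set expansion.
-/

set_option autoImplicit false

open Finset
open scoped Classical

namespace Pool.Agent.Lib.MP_8d8c46_lc.SA

theorem main_pq {p q : ℕ} (hp : 1 ≤ p) (hpq : p ≤ q) {η : ℝ} (hη : (p : ℝ) / q < η) :
    ∃ d₀ : ℕ, 1 ≤ d₀ ∧ ∀ d ≥ d₀, ∀ ε : ℝ, 0 < ε → ∃ c : ℝ, 0 < c ∧ ∃ N₀ : ℕ, 1 ≤ N₀ ∧ ∀ N ≥ N₀,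
      ∃ (V : Type) (_ : Fintype V) (_ : DecidableEq V) (G : SimpleGraph V),
        Fintype.card V = 2 * d * q * N ∧ Regular G d ∧
        (∀ S : Finset V, S.card = 2 * d * N * p → (inside G S : ℝ) ≤ η * (d * S.card)) ∧
        ∃ X : Finset V → ℝ,
          SheraliAdams ⌊(Fintype.card V : ℝ) ^ c⌋₊ (2 * d * N * p) X ∧
          pseudoExpansion G d (2 * d * N * p) X ≤ ε := by
  have hq : 0 < q := by omega
  have : NeZero q := ⟨hq.ne'⟩
  have hq' : (0 : ℝ) < q := by exact_mod_cast hq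
  have hp' : (0 : ℝ) < p := by exact_mod_cast hp
  obtain ⟨κ, hκ⟩ : ∃ κ : ℝ, κ = ((p : ℝ) / q * (η - p / q)) ^ 2 / 68 := ⟨_, rfl⟩
  have hκ0 : 0 < κ := by
    rw [hκ]
    have : 0 < η - p / q := by linarith
    positivity
  obtain ⟨d₁, hd₁⟩ := exists_nat_ge ((2 * q + 1) / κ)
  refine ⟨max d₁ 1, le_max_right _ _, fun d hd ε hε => ?_⟩
  have hd1 : 1 ≤ d := (le_max_right _ _).trans hd
  have hdκ : 2 * q + 1 ≤ d * κ := by
    rw [div_le_iff₀ hκ0] at hd₁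
    refine hd₁.trans (mul_le_mul_of_nonneg_right ?_ hκ0.le)
    exact_mod_cast (le_max_left _ _).trans hd
  obtain ⟨r, τ, hr0, hr1, hτ, hrτ⟩ := exists_rho hq hε
  obtain ⟨E, hE⟩ : ∃ E : ℕ, E = 2 * (4 * d + 1) ^ 2 := ⟨_, rfl⟩
  have hE2 : 50 ≤ E := by
    rw [hE]
    have : 5 ≤ 4 * d + 1 := by omega
    nlinarith
  have hE1 : (1 : ℝ) < E := by exact_mod_cast (by omega : 1 < E)
  have hlogE : 0 < Real.log E := Real.log_pos hE1
  have hlogr : 0 < Real.log (1 / r) := Real.log_pos (by rw [lt_div_iff₀ hr0]; linarith)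
  obtain ⟨c, hc⟩ : ∃ c : ℝ, c = Real.log (1 / r) / Real.log E := ⟨_, rfl⟩
  have hc0 : 0 < c := by rw [hc]; exact div_pos hlogr hlogE
  have hEc : (E : ℝ) ^ c = 1 / r := by
    rw [Real.rpow_def_of_pos (by linarith), hc, mul_div_cancel₀ _ hlogE.ne',
      Real.exp_log (by positivity)]
  obtain ⟨L₀, hL₀⟩ := exists_L (q := q) (d := d) (r := r)
    (C := ((2 * d * q * E : ℕ) : ℝ) ^ c) (ε := ε) hr0 hr1 hε
  obtain ⟨N₁, hN₁⟩ := exists_nat_ge ((2 : ℝ) ^ (1 / c))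
  refine ⟨c, hc0, max (E ^ (L₀ + 1)) (max N₁ 2), ?_, fun N hN => ?_⟩
  · exact le_trans (by norm_num) ((le_max_right _ _).trans (le_max_right _ _))
  have hNE : E ^ (L₀ + 1) ≤ N := (le_max_left _ _).trans hN
  have hNN₁ : N₁ ≤ N := ((le_max_left _ _).trans (le_max_right _ _)).trans hN
  have hN2 : 2 ≤ N := ((le_max_right _ _).trans (le_max_right _ _)).trans hN
  obtain ⟨L, hL⟩ : ∃ L : ℕ, L = Nat.log E N := ⟨_, rfl⟩
  have hLL : L₀ ≤ L := by
    rw [hL]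
    have := Nat.le_log_of_pow_le (by omega) hNE
    omega
  obtain ⟨hL1, hmain, hdel⟩ := hL₀ L hLL
  have hEL : E ^ L ≤ N := by
    rw [hL]
    exact Nat.pow_log_le_self E (by omega)
  have hEL1 : N ≤ E ^ (L + 1) := by
    rw [hL]
    exact (Nat.lt_pow_succ_log_self (by omega) N).le
  have hMN : 2 * (2 * L) ≤ N := by
    refine le_trans ?_ hEL
    have h1 : L < 2 ^ L := Nat.lt_two_pow_self
    have h2 : 4 ≤ 4 ^ L := by
      calc 4 = 4 ^ 1 := by norm_num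
        _ ≤ 4 ^ L := Nat.pow_le_pow_right (by norm_num) hL1
    have h3 : (4 * 2) ^ L ≤ E ^ L := Nat.pow_le_pow_left (by omega) _
    rw [mul_pow] at h3
    nlinarith
  obtain ⟨ω, hω1, hω2⟩ := exists_good (d := d) (N := N) (q := q) (p := p) (M := 2 * L)
    hN2 hMN hd1 hη hκ hdκ
  have hcardB : Fintype.card (BV d N) = 2 * d * N := by
    rw [Fintype.card_prod, Fintype.card_prod, Fintype.card_bool, Fintype.card_fin,
      Fintype.card_fin]
    ring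
  have hcard : Fintype.card (BV d N × ZMod q) = 2 * d * q * N := by
    rw [Fintype.card_prod, hcardB, ZMod.card]
    ring
  obtain ⟨n, hn⟩ : ∃ n : ℕ, n = Fintype.card (BV d N × ZMod q) := ⟨_, rfl⟩
  obtain ⟨k, hk⟩ : ∃ k : ℕ, k = ⌊(n : ℝ) ^ c⌋₊ := ⟨_, rfl⟩
  have hnN : N ≤ n := by
    rw [hn, hcard]
    exact Nat.le_mul_of_pos_left _ (by positivity)
  have hk2 : 2 ≤ k := by
    rw [hk]
    refine Nat.le_floor ?_
    push_cast
    calc (2 : ℝ) = ((2 : ℝ) ^ (1 / c)) ^ c := by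
          rw [← Real.rpow_mul (by norm_num), one_div, inv_mul_cancel₀ hc0.ne', Real.rpow_one]
      _ ≤ (n : ℝ) ^ c := by
          refine Real.rpow_le_rpow (by positivity) (hN₁.trans ?_) hc0.le
          exact_mod_cast hNN₁.trans hnN
  have hkn : (k : ℝ) ≤ (n : ℝ) ^ c := by
    rw [hk]
    exact Nat.floor_le (by positivity)
  have hnE : n ≤ (2 * d * q * E) * E ^ L := by
    rw [hn, hcard]
    calc 2 * d * q * N ≤ 2 * d * q * E ^ (L + 1) := Nat.mul_le_mul_left _ hEL1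
      _ = _ := by ring
  have hm := rounds (q := q) (d := d) (E := E) (L := L) (k := k) (n := n) (r := r) (c := c)
    (m := 2 * d * q * E) hr0 hc0.le hEc hkn hnE rfl (by nlinarith) hmain
  have hdele := deleted (q := q) (d := d) (E := E) (L := L) (N := N) hd1 hL1 hE hEL hω2 hdel
  obtain ⟨X, hX1, hX2⟩ := exists_solution (B := Bg ω) (B' := Bs ω (2 * L)) (shf_symm ω)
    (Bs_le ω _) hL1 (NB_Bs ω _) (dg_Bg ω) hk2 hpq hp hd1 (ρ := r ^ 4) (τ := τ)
    (by positivity) (pow_lt_one₀ hr0.le hr1 (by norm_num)) hτ hm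
    (by rw [hcardB]; positivity)
  have hreg : Regular (lift (Bg ω) (shf ω) (shf_symm ω)) d := by
    intro v
    have := dg_lift (B := Bg ω) (sh := shf ω) (hsh := shf_symm ω) v
    rw [dg_Bg] at this
    exact this
  have h1 : (p : ℝ) * Fintype.card (BV d N) = 2 * d * N * p := by
    rw [hcardB]; push_cast; ring
  have hX3 := le_trans hX2 (show _ ≤ ε by rw [hcardB]; linarith)
  rw [h1] at hX1 hX3
  rw [hk, hn] at hX1
  exact ⟨BV d N × ZMod q, _, _, lift (Bg ω) (shf ω) (shf_symm ω), hcard, hreg, hω1, X, hX1, hX3⟩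

end Pool.Agent.Lib.MP_8d8c46_lc.SA
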