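import Pool.Agent.Lib.MP_8d8c46_lc.SA.Lift

/-!
Random lifts of complete bipartite graphs have few short cycles.
-/

set_option autoImplicit false
set_option linter.unusedSectionVars false

open Finset
open scoped Classical

namespace Pool.Agent.Lib.MP_8d8c46_lc.SA

/-- vertices of the base graph: a side, a class, an index -/
abbrev BV (d N : ℕ) : Type := Bool × Fin d × Fin N

/-- the random choices: for each pair of classes a permutation and shifts -/
abbrev Om (d N q : ℕ) : Type := Fin d × Fin d → Equiv.Perm (Fin N) × (Fin N → ZMod q)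

variable {d N q : ℕ}

/-- adjacency from the left side to the right side -/
def lr (ω : Om d N q) (x y : BV d N) : Prop :=
  x.1 = false ∧ y.1 = true ∧ (ω (x.2.1, y.2.1)).1 x.2.2 = y.2.2

/-- the base graph -/
def Bg (ω : Om d N q) : SimpleGraph (BV d N) where
  Adj x y := lr ω x y ∨ lr ω y x
  symm := ⟨fun _ _ h => h.symm⟩
  loopless := ⟨fun x h => by
    rcases h with h | h <;> exact absurd (h.1.symm.trans h.2.1) (by decide)⟩

/-- the shifts -/
def shf (ω : Om d N q) (x y : BV d N) : ZMod q :=
  if x.1 = false ∧ y.1 = true then (ω (x.2.1, y.2.1)).2 x.2.2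
  else if x.1 = true ∧ y.1 = false then -(ω (y.2.1, x.2.1)).2 y.2.2 else 0

lemma shf_symm (ω : Om d N q) (x y : BV d N) : shf ω y x = -shf ω x y := by
  obtain ⟨a, x⟩ := x
  obtain ⟨b, y⟩ := y
  cases a <;> cases b <;> simp [shf]

lemma dg_Bg (ω : Om d N q) (x : BV d N) : dg (Bg ω) x = d := by
  obtain ⟨a, i, s⟩ := x
  have h1 : (univ : Finset (Fin d)).card = d := by simp
  unfold dg
  refine Eq.trans ?_ h1
  symm
  cases a
  · refine card_bij (fun b _ => (true, b, (ω (i, b)).1 s)) ?_ ?_ ?_
    · intro b _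
      simp only [mem_filter, mem_univ, true_and]
      exact Or.inl ⟨rfl, rfl, rfl⟩
    · intro b _ b' _ h
      exact (Prod.mk.inj (Prod.mk.inj h).2).1
    · rintro ⟨c, b, t⟩ h
      simp only [mem_filter, mem_univ, true_and] at h
      rcases h with h | h
      · obtain ⟨_, h2, h3⟩ := h
        simp only at h2 h3
        exact ⟨b, mem_univ _, by rw [h2, h3]⟩
      · exact absurd h.2.1 (by simp)
  · refine card_bij (fun b _ => (false, b, (ω (b, i)).1.symm s)) ?_ ?_ ?_
    · intro b _
      simp only [mem_filter, mem_univ, true_and]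
      exact Or.inr ⟨rfl, rfl, by simp⟩
    · intro b _ b' _ h
      exact (Prod.mk.inj (Prod.mk.inj h).2).1
    · rintro ⟨c, b, t⟩ h
      simp only [mem_filter, mem_univ, true_and] at h
      rcases h with h | h
      · exact absurd h.1 (by simp)
      · obtain ⟨h1, _, h3⟩ := h
        simp only at h1 h3
        exact ⟨b, mem_univ _, by rw [h1, ← h3]; simp⟩

/-! ### Prescribed edges -/

/-- the edge `e` is present -/
def present (ω : Om d N q) (e : (Fin d × Fin N) × (Fin d × Fin N)) : Prop :=
  (ω (e.1.1, e.2.1)).1 e.1.2 = e.2.2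

/-- the choices for which all edges of `C` are present -/
noncomputable def allIn [NeZero q] (C : Finset ((Fin d × Fin N) × (Fin d × Fin N))) :
    Finset (Om d N q) :=
  univ.filter fun ω => ∀ e ∈ C, present ω e

lemma allIn_step [NeZero q] {C : Finset ((Fin d × Fin N) × (Fin d × Fin N))}
    {e : (Fin d × Fin N) × (Fin d × Fin N)} (he : e ∉ C) :
    (allIn (q := q) (insert e C)).card * (N - C.card) ≤ (allIn (q := q) C).card := by
  obtain ⟨⟨a, s⟩, ⟨b, t⟩⟩ := e
  obtain ⟨Z, hZ⟩ : ∃ Z : Finset (Fin N), Z = (C.image (fun e => e.2.2))ᶜ := ⟨_, rfl⟩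
  have hZc : N - C.card ≤ Z.card := by
    rw [hZ, card_compl, Fintype.card_fin]
    have := card_image_le (s := C) (f := fun e => e.2.2)
    omega
  refine (Nat.mul_le_mul_left _ hZc).trans ?_
  rw [← card_product]
  refine card_le_card_of_injOn (fun r => Function.update r.1 (a, b)
    (Equiv.swap t r.2 * (r.1 (a, b)).1, (r.1 (a, b)).2)) ?_ ?_
  · rintro ⟨ω, z⟩ hr
    simp only [coe_product, Set.mem_prod, mem_coe, allIn, mem_filter, mem_univ, true_and] at hr ⊢
    obtain ⟨h1, h2⟩ := hr
    rintro ⟨⟨a', s'⟩, ⟨b', t'⟩⟩ he'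
    have h3 := h1 _ (mem_insert_of_mem he')
    unfold present at h3 ⊢
    simp only at h3 ⊢
    by_cases hab : (a', b') = (a, b)
    · rw [hab, Function.update_self]
      simp only [Equiv.Perm.coe_mul, Function.comp_apply]
      rw [hab] at h3
      rw [h3]
      have h4 := h1 _ (mem_insert_self _ _)
      unfold present at h4
      simp only at h4
      refine Equiv.swap_apply_of_ne_of_ne ?_ ?_
      · rintro rfl
        have h5 : s' = s := (ω (a, b)).1.injective (h3.trans h4.symm)
        simp only [Prod.mk.injEq] at hab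
        obtain ⟨rfl, rfl⟩ := hab
        subst h5
        exact he he'
      · rintro rfl
        rw [hZ, mem_compl] at h2
        exact h2 (mem_image_of_mem (fun e : (Fin d × Fin N) × (Fin d × Fin N) => e.2.2) he')
    · rw [Function.update_of_ne hab]
      exact h3
  · rintro ⟨ω, z⟩ hr ⟨ω', z'⟩ hr' h
    simp only [coe_product, Set.mem_prod, mem_coe, allIn, mem_filter, mem_univ, true_and] at hr hr'
    have h4 := hr.1 _ (mem_insert_self _ _)
    have h4' := hr'.1 _ (mem_insert_self _ _)
    unfold present at h4 h4'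
    simp only at h4 h4' h
    have h5 := congrFun h (a, b)
    rw [Function.update_self, Function.update_self] at h5
    obtain ⟨h6, h7⟩ := Prod.mk.inj h5
    have h8 : z = z' := by
      have h9 := congrArg (fun σ : Equiv.Perm (Fin N) => σ s) h6
      simp only [Equiv.Perm.coe_mul, Function.comp_apply, h4, h4', Equiv.swap_apply_left] at h9
      exact h9
    subst h8
    have h9 : (ω (a, b)).1 = (ω' (a, b)).1 := mul_left_cancel h6
    refine Prod.ext ?_ rfl
    funext r
    by_cases hr2 : r = (a, b)
    · subst hr2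
      exact Prod.ext h9 h7
    · have := congrFun h r
      rwa [Function.update_of_ne hr2, Function.update_of_ne hr2] at this

lemma card_allIn [NeZero q] {m : ℕ} (C : Finset ((Fin d × Fin N) × (Fin d × Fin N)))
    (hC : C.card ≤ m) :
    (allIn (q := q) C).card * (N - m) ^ C.card ≤ Fintype.card (Om d N q) := by
  induction C using Finset.induction_on with
  | empty =>
    simp only [card_empty, pow_zero, mul_one]
    exact card_le_univ _
  | insert e C he ih =>
    rw [card_insert_of_notMem he] at hC ⊢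
    have h1 := allIn_step (q := q) he
    have h2 := ih (by omega)
    calc (allIn (q := q) (insert e C)).card * (N - m) ^ (C.card + 1)
        = (allIn (q := q) (insert e C)).card * (N - m) * (N - m) ^ C.card := by ring
      _ ≤ (allIn (q := q) (insert e C)).card * (N - C.card) * (N - m) ^ C.card :=
          Nat.mul_le_mul_right _ (Nat.mul_le_mul_left _ (by omega))
      _ ≤ (allIn (q := q) C).card * (N - m) ^ C.card := Nat.mul_le_mul_right _ h1
      _ ≤ _ := h2

/-! ### Cycles -/

/-- the cyclic successor -/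
def nxt {m : ℕ} (i : Fin m) : Fin m :=
  ⟨if (i : ℕ) + 1 = m then 0 else i + 1, by
    have := i.2
    split_ifs <;> omega⟩

/-- `x` is a cycle of length `m` of the base graph -/
def Cyc (ω : Om d N q) {m : ℕ} (x : Fin m → BV d N) : Prop :=
  Function.Injective x ∧ ∀ i, (Bg ω).Adj (x i) (x (nxt i))

lemma card_cyc [NeZero q] {m : ℕ} (hm : 3 ≤ m) (x : Fin m → BV d N) :
    (univ.filter fun ω : Om d N q => Cyc ω x).card * (N - m) ^ m ≤
      Fintype.card (Om d N q) := by
  by_cases hx : Function.Injective x ∧ ∀ i, (x (nxt i)).1 = !(x i).1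
  · obtain ⟨hinj, halt⟩ := hx
    obtain ⟨e, he⟩ : ∃ e : Fin m → (Fin d × Fin N) × (Fin d × Fin N), ∀ i, e i =
        if (x i).1 = false then ((x i).2, (x (nxt i)).2) else ((x (nxt i)).2, (x i).2) :=
      ⟨_, fun _ => rfl⟩
    have heinj : Function.Injective e := by
      intro i j hij
      rw [he, he] at hij
      have hi := halt i
      have hj := halt j
      have key : ∀ i j : Fin m, (x i).1 = false → (x j).1 = true → e i = e j → False := by
        intro i j h1 h2 h3
        rw [he, he, if_pos h1, if_neg (by rw [h2]; decide)] at h3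
        obtain ⟨h4, h5⟩ := Prod.mk.inj h3
        have h6 : x i = x (nxt j) := by
          refine Prod.ext ?_ h4
          rw [halt j, h1, h2]
          rfl
        have h7 : x (nxt i) = x j := by
          refine Prod.ext ?_ h5
          rw [halt i, h1, h2]
          rfl
        have h8 := congrArg Fin.val (hinj h6)
        have h9 := congrArg Fin.val (hinj h7)
        unfold nxt at h8 h9
        simp only at h8 h9
        have := i.2
        have := j.2
        split_ifs at h8 h9 <;> omega
      rcases hxi : (x i).1 with _ | _ <;> rcases hxj : (x j).1 with _ | _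
      · rw [if_pos hxi, if_pos hxj] at hij
        refine hinj (Prod.ext (by rw [hxi, hxj]) (Prod.mk.inj hij).1)
      · exact absurd (by rw [he, he]; exact hij) (key i j hxi hxj)
      · exact absurd (by rw [he, he]; exact hij.symm) (key j i hxj hxi)
      · rw [if_neg (by rw [hxi]; decide), if_neg (by rw [hxj]; decide)] at hij
        refine hinj (Prod.ext (by rw [hxi, hxj]) (Prod.mk.inj hij).2)
    have hC : (univ.image e).card = m := by
      rw [card_image_of_injective _ heinj, card_univ, Fintype.card_fin]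
    have h1 := card_allIn (q := q) (m := m) (univ.image e) hC.le
    rw [hC] at h1
    refine (Nat.mul_le_mul_right _ (card_le_card ?_)).trans h1
    intro ω hω
    simp only [mem_filter, mem_univ, true_and, allIn, mem_image] at hω ⊢
    rintro _ ⟨i, rfl⟩
    have h2 := hω.2 i
    rw [he]
    unfold present
    rcases h2 with h2 | h2
    · rw [if_pos h2.1]
      exact h2.2.2
    · rw [if_neg (by rw [h2.2.1]; decide)]
      exact h2.2.2
  · have : (univ.filter fun ω : Om d N q => Cyc ω x) = ∅ := by
      rw [filter_eq_empty_iff]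
      rintro ω - ⟨h1, h2⟩
      refine hx ⟨h1, fun i => ?_⟩
      rcases h2 i with h | h
      · rw [h.1, h.2.1]; rfl
      · rw [h.1, h.2.1]; rfl
    rw [this]
    simp

/-! ### Removing the short cycles -/

/-- the pair lies on a cycle of length `m` -/
def OnCyc (ω : Om d N q) (m : ℕ) (e : BV d N × BV d N) : Prop :=
  ∃ x : Fin m → BV d N, Cyc ω x ∧ ∃ i, (x i = e.1 ∧ x (nxt i) = e.2) ∨
    (x i = e.2 ∧ x (nxt i) = e.1)

/-- the base graph without the edges on short cycles -/
def Bs (ω : Om d N q) (M : ℕ) : SimpleGraph (BV d N) where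
  Adj x y := (Bg ω).Adj x y ∧ ∀ m, 3 ≤ m → m ≤ M → ¬ OnCyc ω m (x, y)
  symm := ⟨fun x y h => ⟨h.1.symm, fun m h1 h2 h3 => by
    refine h.2 m h1 h2 ?_
    obtain ⟨z, hz, i, hi⟩ := h3
    exact ⟨z, hz, i, hi.symm⟩⟩⟩
  loopless := ⟨fun x h => (Bg ω).loopless.irrefl _ h.1⟩

lemma Bs_le (ω : Om d N q) (M : ℕ) : Bs ω M ≤ Bg ω := fun _ _ h => h.1

lemma NB_Bs (ω : Om d N q) (M : ℕ) : NB (Bs ω M) M := by
  refine NB.of_no_cycle (fun m x h1 h2 h3 h4 => ?_)
  by_contra hcon
  push Not at hcon
  have h5 := (h3 0 (by omega)).2 m h1 h2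
  apply h5
  have hn : ∀ i : Fin m, x (nxt i) = x (i + 1) := by
    intro i
    unfold nxt
    simp only
    split_ifs with h
    · rw [h, h4]
    · rfl
  refine ⟨fun i => x i, ⟨?_, ?_⟩, ⟨0, by omega⟩, Or.inl ⟨rfl, ?_⟩⟩
  · intro i j hij
    rcases lt_trichotomy (i : ℕ) j with h | h | h
    · exact absurd hij (hcon i j h j.2)
    · exact Fin.ext h
    · exact absurd hij.symm (hcon j i h i.2)
  · intro i
    show (Bg ω).Adj (x i) (x (nxt i))
    rw [hn]
    exact (h3 i i.2).1
  · show x (nxt ⟨0, _⟩) = x (0 + 1)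
    rw [hn]

lemma card_removed [NeZero q] (ω : Om d N q) (M : ℕ) :
    (univ.filter (fun e : BV d N × BV d N => (Bg ω).Adj e.1 e.2 ∧ ¬ (Bs ω M).Adj e.1 e.2)).card ≤
      ∑ m ∈ Icc 3 M, 2 * m * (univ.filter (fun x : Fin m → BV d N => Cyc ω x)).card := by
  have hsub : univ.filter (fun e : BV d N × BV d N =>
      (Bg ω).Adj e.1 e.2 ∧ ¬ (Bs ω M).Adj e.1 e.2) ⊆
      (Icc 3 M).biUnion (fun m => univ.filter (fun e : BV d N × BV d N => OnCyc ω m e)) := by
    intro e he
    simp only [mem_filter, mem_univ, true_and] at he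
    simp only [mem_biUnion, mem_Icc, mem_filter, mem_univ, true_and]
    by_contra hcon
    push Not at hcon
    exact he.2 ⟨he.1, fun m h1 h2 => hcon m ⟨h1, h2⟩⟩
  refine (card_le_card hsub).trans (card_biUnion_le.trans (sum_le_sum (fun m _ => ?_)))
  have h1 : univ.filter (fun e : BV d N × BV d N => OnCyc ω m e) ⊆
      ((univ.filter (fun x : Fin m → BV d N => Cyc ω x)) ×ˢ ((univ : Finset (Fin m)) ×ˢ
        (univ : Finset Bool))).image (fun z => if z.2.2 = true then
          (z.1 z.2.1, z.1 (nxt z.2.1)) else (z.1 (nxt z.2.1), z.1 z.2.1)) := by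
    intro e he
    simp only [mem_filter, mem_univ, true_and] at he
    obtain ⟨x, hx, i, hi⟩ := he
    rw [mem_image]
    rcases hi with hi | hi
    · refine ⟨(x, (i, true)), by simp [hx], ?_⟩
      simp only [if_true]
      rw [hi.1, hi.2]
    · refine ⟨(x, (i, false)), by simp [hx], ?_⟩
      simp only [Bool.false_eq_true, if_false]
      rw [hi.1, hi.2]
  refine (card_le_card h1).trans (card_image_le.trans ?_)
  rw [card_product, card_product, card_univ, card_univ, Fintype.card_fin, Fintype.card_bool]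
  exact le_of_eq (by ring)

/-- The average number of removed edges. -/
theorem sum_removed [NeZero q] {M : ℕ} (hN : 2 * M ≤ N) (hN0 : 0 < N) :
    ∑ ω : Om d N q, ((univ.filter (fun e : BV d N × BV d N =>
        (Bg ω).Adj e.1 e.2 ∧ ¬ (Bs ω M).Adj e.1 e.2)).card : ℝ) ≤
      Fintype.card (Om d N q) * (2 * M ^ 2 * (4 * d + 1) ^ M) := by
  have hN0' : (0 : ℝ) < N := by exact_mod_cast hN0
  have h1 : ∀ m ∈ Icc 3 M, ∑ ω : Om d N q,
      ((univ.filter (fun x : Fin m → BV d N => Cyc ω x)).card : ℝ) ≤
      Fintype.card (Om d N q) * (4 * d) ^ m := by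
    intro m hm
    rw [mem_Icc] at hm
    have h2 : ∑ ω : Om d N q, ((univ.filter (fun x : Fin m → BV d N => Cyc ω x)).card : ℝ) =
        ∑ x : Fin m → BV d N, ((univ.filter fun ω : Om d N q => Cyc ω x).card : ℝ) := by
      simp only [card_filter]
      push_cast
      rw [sum_comm]
    have h3 : ∀ x : Fin m → BV d N, ((univ.filter fun ω : Om d N q => Cyc ω x).card : ℝ) ≤
        Fintype.card (Om d N q) * (2 / N) ^ m := by
      intro x
      have h4 := card_cyc (q := q) hm.1 x
      have h5 : (N : ℝ) / 2 ≤ (N - m : ℕ) := by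
        rw [Nat.cast_sub (by omega)]
        have : (2 : ℝ) * m ≤ N := by exact_mod_cast (by omega : 2 * m ≤ N)
        linarith
      have h6 : ((univ.filter fun ω : Om d N q => Cyc ω x).card : ℝ) * ((N - m : ℕ) : ℝ) ^ m ≤
          Fintype.card (Om d N q) := by exact_mod_cast h4
      have h7 : ((univ.filter fun ω : Om d N q => Cyc ω x).card : ℝ) * (N / 2) ^ m ≤
          Fintype.card (Om d N q) :=
        (mul_le_mul_of_nonneg_left (pow_le_pow_left₀ (by positivity) h5 m)
          (Nat.cast_nonneg _)).trans h6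
      have h8 : (0 : ℝ) < (N / 2) ^ m := by positivity
      rw [show ((2 : ℝ) / N) ^ m = 1 / (N / 2) ^ m by
        rw [div_pow, div_pow, one_div_div], mul_one_div, le_div_iff₀ h8]
      exact h7
    rw [h2]
    refine (sum_le_sum (fun x _ => h3 x)).trans (le_of_eq ?_)
    rw [sum_const, card_univ, Fintype.card_fun, Fintype.card_fin, Fintype.card_prod,
      Fintype.card_prod, Fintype.card_bool, Fintype.card_fin, Fintype.card_fin, nsmul_eq_mul]
    push_cast
    rw [mul_left_comm, ← mul_pow]
    congr 2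
    field_simp
    ring
  have h2 : ∀ ω : Om d N q, ((univ.filter (fun e : BV d N × BV d N =>
        (Bg ω).Adj e.1 e.2 ∧ ¬ (Bs ω M).Adj e.1 e.2)).card : ℝ) ≤
      ∑ m ∈ Icc 3 M, 2 * m * ((univ.filter (fun x : Fin m → BV d N => Cyc ω x)).card : ℝ) := by
    intro ω
    exact_mod_cast card_removed ω M
  calc _ ≤ ∑ ω : Om d N q, ∑ m ∈ Icc 3 M, 2 * m *
        ((univ.filter (fun x : Fin m → BV d N => Cyc ω x)).card : ℝ) :=
        sum_le_sum (fun ω _ => h2 ω)
    _ = ∑ m ∈ Icc 3 M, 2 * m * ∑ ω : Om d N q,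
        ((univ.filter (fun x : Fin m → BV d N => Cyc ω x)).card : ℝ) := by
        rw [sum_comm]
        refine sum_congr rfl (fun m _ => ?_)
        rw [mul_sum]
    _ ≤ ∑ _m ∈ Icc 3 M, 2 * (M : ℝ) *
        ((Fintype.card (Om d N q) : ℝ) * (4 * (d : ℝ) + 1) ^ M) := by
        refine sum_le_sum (fun m hm => ?_)
        have hm' := mem_Icc.1 hm
        have hmM : (2 : ℝ) * m ≤ 2 * M := by exact_mod_cast (by omega : 2 * m ≤ 2 * M)
        have hd0 : (0 : ℝ) ≤ d := Nat.cast_nonneg _
        have h5 : ((4 : ℝ) * d) ^ m ≤ (4 * d + 1) ^ M :=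
          (pow_le_pow_left₀ (by positivity) (by linarith) m).trans
            (pow_le_pow_right₀ (by linarith) hm'.2)
        have h6 : (Fintype.card (Om d N q) : ℝ) * (4 * d) ^ m ≤
            Fintype.card (Om d N q) * (4 * d + 1) ^ M :=
          mul_le_mul_of_nonneg_left h5 (Nat.cast_nonneg _)
        exact mul_le_mul hmM ((h1 m hm).trans h6)
          (sum_nonneg (fun ω _ => Nat.cast_nonneg _)) (by positivity)
    _ ≤ (M : ℝ) * (2 * (M : ℝ) *
        ((Fintype.card (Om d N q) : ℝ) * (4 * (d : ℝ) + 1) ^ M)) := by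
        rw [sum_const, nsmul_eq_mul]
        have h7 : (Icc 3 M).card ≤ M := by
          rw [Nat.card_Icc]; omega
        have h8 : ((Icc 3 M).card : ℝ) ≤ M := by exact_mod_cast h7
        exact mul_le_mul_of_nonneg_right h8 (by positivity)
    _ = _ := by ring

end Pool.Agent.Lib.MP_8d8c46_lc.SA
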